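import Pool.Agent.GamLev.Trig

/-!
Binomial coefficients with real lower index: `B n u`, logarithm `LB n u`, slope `sl n u`,
curvature `om n u`.
-/

open Filter Topology

namespace GamLev

/-- log of the real binomial -/
noncomputable def LB (n u : ℝ) : ℝ := lg (n + 1) - lg (u + 1) - lg (n - u + 1)

/-- real binomial -/
noncomputable def B (n u : ℝ) : ℝ := Real.exp (LB n u)

/-- slope of the log -/
noncomputable def sl (n u : ℝ) : ℝ := dg (n - u + 1) - dg (u + 1)

/-- minus the derivative of the slope -/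
noncomputable def om (n u : ℝ) : ℝ := trig (n - u + 1) + trig (u + 1)

lemma B_pos (n u : ℝ) : 0 < B n u := Real.exp_pos _

lemma log_B (n u : ℝ) : Real.log (B n u) = LB n u := Real.log_exp _

lemma exp_lg {x : ℝ} (hx : 0 < x) : Real.exp (lg x) = Real.Gamma x :=
  Real.exp_log (Real.Gamma_pos_of_pos hx)

lemma LB_symm (n u : ℝ) : LB n (n - u) = LB n u := by
  unfold LB
  have : n - (n - u) + 1 = u + 1 := by ring
  rw [this]; ring

lemma B_symm (n u : ℝ) : B n (n - u) = B n u := by
  unfold B; rw [LB_symm]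

lemma sl_symm (n u : ℝ) : sl n (n - u) = - sl n u := by
  unfold sl
  have : n - (n - u) + 1 = u + 1 := by ring
  rw [this]; ring

lemma sl_mid (n : ℝ) : sl n (n / 2) = 0 := by
  unfold sl
  have : n - n / 2 = n / 2 := by ring
  rw [this]; ring

lemma om_symm (n u : ℝ) : om n (n - u) = om n u := by
  unfold om
  have : n - (n - u) + 1 = u + 1 := by ring
  rw [this]; ring

/-- integer values -/
lemma B_nat (n a : ℕ) (h : a ≤ n) : B n a = (n.choose a : ℝ) := by
  unfold B LB
  have h1 : ((n : ℝ) - a + 1) = ((n - a : ℕ) : ℝ) + 1 := by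
    rw [Nat.cast_sub h]
  rw [Real.exp_sub, Real.exp_sub, exp_lg (by positivity), exp_lg (by positivity), h1,
    exp_lg (by positivity), Real.Gamma_nat_eq_factorial, Real.Gamma_nat_eq_factorial,
    Real.Gamma_nat_eq_factorial, Nat.cast_choose ℝ h, div_div]

/-- the two halves of Pascal's identity -/
lemma LB_down {n u : ℝ} (hu : 0 < u) (hn : 0 < n + 1) :
    LB n (u - 1) = LB (n + 1) u + Real.log u - Real.log (n + 1) := by
  unfold LB
  have e1 : u - 1 + 1 = u := by ring
  have e2 : n - (u - 1) + 1 = n + 1 - u + 1 := by ring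
  rw [e1, e2, lg_add_one hn, lg_add_one hu]
  ring

lemma LB_stay {n u : ℝ} (hu : u < n + 1) (hn : 0 < n + 1) :
    LB n u = LB (n + 1) u + Real.log (n + 1 - u) - Real.log (n + 1) := by
  unfold LB
  have e1 : n - u + 1 = n + 1 - u := by ring
  have h : 0 < n + 1 - u := by linarith
  rw [e1, lg_add_one hn, lg_add_one h]
  ring

lemma B_down {n u : ℝ} (hu : 0 < u) (hn : 0 < n + 1) :
    B n (u - 1) = u / (n + 1) * B (n + 1) u := by
  unfold B
  rw [LB_down hu hn, Real.exp_sub, Real.exp_add, Real.exp_log hu, Real.exp_log hn]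
  ring

lemma B_stay {n u : ℝ} (hu : u < n + 1) (hn : 0 < n + 1) :
    B n u = (n + 1 - u) / (n + 1) * B (n + 1) u := by
  unfold B
  have h : 0 < n + 1 - u := by linarith
  rw [LB_stay hu hn, Real.exp_sub, Real.exp_add, Real.exp_log h, Real.exp_log hn]
  ring

/-- Pascal -/
lemma B_pascal {n u : ℝ} (hu : 0 < u) (hu' : u < n + 1) :
    B (n + 1) u = B n (u - 1) + B n u := by
  have hn : 0 < n + 1 := by linarith
  rw [B_down hu hn, B_stay hu' hn]
  field_simp
  ring

/-- two steps: `B (n-2) (u-1)` in terms of `B n u` -/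
lemma B_two {n u : ℝ} (hu : 0 < u) (hu' : u < n + 2) (hn : 0 < n + 1) :
    B n (u - 1) = u * (n + 2 - u) / ((n + 2) * (n + 1)) * B (n + 2) u := by
  have h1 := B_down (n := n) hu hn
  have h2 := B_stay (n := n + 1) (u := u) (by linarith) (by linarith)
  rw [h1, h2]
  have e : n + 1 + 1 = n + 2 := by ring
  rw [e]
  have : n + 1 ≠ 0 := hn.ne'
  have : n + 2 ≠ 0 := by linarith
  field_simp

/-! ### derivatives -/

lemma hasDerivAt_LB {n u : ℝ} (h1 : 0 < u + 1) (h2 : 0 < n - u + 1) :
    HasDerivAt (fun u => LB n u) (sl n u) u := by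
  unfold LB sl
  have e1 : HasDerivAt (fun u : ℝ => lg (u + 1)) (dg (u + 1)) u :=
    (hasDerivAt_lg h1).comp_add_const u 1
  have e2 : HasDerivAt (fun u : ℝ => lg (n - u + 1)) (dg (n - u + 1) * (-1)) u := by
    have h3 : HasDerivAt (fun u : ℝ => n - u + 1) (-1) u :=
      ((hasDerivAt_id' u).const_sub n).add_const 1
    exact HasDerivAt.comp u (h₂ := lg) (hasDerivAt_lg h2) h3
  exact ((e1.const_sub (lg (n + 1))).fun_sub e2).congr_deriv (by ring)

lemma hasDerivAt_B {n u : ℝ} (h1 : 0 < u + 1) (h2 : 0 < n - u + 1) :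
    HasDerivAt (fun u => B n u) (B n u * sl n u) u := by
  unfold B
  exact (hasDerivAt_LB h1 h2).exp

lemma hasDerivAt_sl {n u : ℝ} (h1 : 0 < u + 1) (h2 : 0 < n - u + 1) :
    HasDerivAt (fun u => sl n u) (- om n u) u := by
  unfold sl om
  have e1 : HasDerivAt (fun u : ℝ => dg (u + 1)) (trig (u + 1)) u :=
    (hasDerivAt_dg h1).comp_add_const u 1
  have e2 : HasDerivAt (fun u : ℝ => dg (n - u + 1)) (trig (n - u + 1) * (-1)) u := by
    have h3 : HasDerivAt (fun u : ℝ => n - u + 1) (-1) u :=
      ((hasDerivAt_id' u).const_sub n).add_const 1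
    exact HasDerivAt.comp u (h₂ := dg) (hasDerivAt_dg h2) h3
  exact (e2.fun_sub e1).congr_deriv (by ring)

lemma om_pos {n u : ℝ} (h1 : 0 < u + 1) (h2 : 0 < n - u + 1) : 0 < om n u := by
  unfold om
  exact add_pos (trig_pos h2) (trig_pos h1)

lemma om_gt {n u : ℝ} (h1 : 0 < u + 1) (h2 : 0 < n - u + 1) :
    1 / (u + 1) + 1 / (n - u + 1) < om n u := by
  unfold om
  have := inv_lt_trig h1
  have := inv_lt_trig h2
  linarith

lemma om_lt {n u : ℝ} (h1 : 0 < u) (h2 : 0 < n - u) :
    om n u < 1 / u + 1 / (n - u) := by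
  unfold om
  have := trig_add_one_lt h1
  have := trig_add_one_lt h2
  linarith

/-- the slope is strictly decreasing -/
lemma sl_strictAntiOn (n : ℝ) : StrictAntiOn (fun u => sl n u) (Set.Ioo (-1) (n + 1)) := by
  refine strictAntiOn_of_deriv_neg (convex_Ioo _ _) ?_ ?_
  · rintro u ⟨h1, h2⟩
    exact (hasDerivAt_sl (n := n) (u := u) (by linarith) (by linarith)).continuousAt
      |>.continuousWithinAt
  · intro u hu
    rw [interior_Ioo] at hu
    obtain ⟨h1, h2⟩ := hu
    rw [(hasDerivAt_sl (n := n) (u := u) (by linarith) (by linarith)).deriv]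
    have := om_pos (n := n) (u := u) (by linarith) (by linarith)
    linarith

lemma sl_pos {n u : ℝ} (h1 : -1 < u) (h2 : u < n / 2) : 0 < sl n u := by
  have h := sl_strictAntiOn n (a := u) (b := n / 2) ⟨h1, by linarith⟩
    ⟨by linarith, by linarith⟩ h2
  simp only at h
  rwa [sl_mid] at h

lemma sl_nonneg {n u : ℝ} (h1 : -1 < u) (h2 : u ≤ n / 2) : 0 ≤ sl n u := by
  rcases eq_or_lt_of_le h2 with h | h
  · rw [h, sl_mid]
  · exact (sl_pos h1 h).le

/-- lower bound of the slope -/
lemma log_le_sl {n u : ℝ} (h1 : -1 < u) (h2 : u ≤ n / 2) :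
    Real.log ((n - u + 1) / (u + 1)) ≤ sl n u := by
  have hd : ∀ v ∈ Set.Icc u (n / 2), HasDerivAt
      (fun v => sl n v - Real.log ((n - v + 1) / (v + 1)))
      (- om n v + (1 / (v + 1) + 1 / (n - v + 1))) v := by
    rintro v ⟨hv1, hv2⟩
    have hp1 : 0 < v + 1 := by linarith
    have hp2 : 0 < n - v + 1 := by linarith
    have e1 := hasDerivAt_sl (n := n) (u := v) hp1 hp2
    have e2 : HasDerivAt (fun v : ℝ => (n - v + 1) / (v + 1))
        (((-1) * (v + 1) - (n - v + 1) * 1) / (v + 1) ^ 2) v := by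
      have h3 : HasDerivAt (fun v : ℝ => n - v + 1) (-1) v :=
        ((hasDerivAt_id' v).const_sub n).add_const 1
      exact h3.fun_div ((hasDerivAt_id' v).add_const 1) hp1.ne'
    have e3 := e2.log (by positivity)
    refine (e1.fun_sub e3).congr_deriv ?_
    field_simp
    ring
  have hanti : AntitoneOn (fun v => sl n v - Real.log ((n - v + 1) / (v + 1)))
      (Set.Icc u (n / 2)) := by
    refine antitoneOn_of_deriv_nonpos (convex_Icc _ _)
      (fun v hv => (hd v hv).continuousAt.continuousWithinAt)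
      (fun v hv => (hd v (interior_subset hv)).differentiableAt.differentiableWithinAt) ?_
    intro v hv
    have hv' := interior_subset hv
    rw [(hd v hv').deriv]
    have := om_gt (n := n) (u := v) (by linarith [hv'.1]) (by linarith [hv'.1, hv'.2])
    linarith
  have h := hanti (Set.left_mem_Icc.mpr h2) (Set.right_mem_Icc.mpr h2) h2
  simp only at h
  have hm : (n - n / 2 + 1) / (n / 2 + 1) = 1 := by
    have : n - n / 2 + 1 = n / 2 + 1 := by ring
    rw [this, div_self]
    linarith
  rw [hm, Real.log_one, sl_mid] at h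
  linarith

/-- upper bound of the slope -/
lemma sl_le_log {n u : ℝ} (h1 : 0 < u) (h2 : u ≤ n / 2) :
    sl n u ≤ Real.log ((n - u) / u) := by
  have hd : ∀ v ∈ Set.Icc u (n / 2), HasDerivAt
      (fun v => sl n v - Real.log ((n - v) / v))
      (- om n v + (1 / v + 1 / (n - v))) v := by
    rintro v ⟨hv1, hv2⟩
    have hp1 : 0 < v := by linarith
    have hp2 : 0 < n - v := by linarith
    have e1 := hasDerivAt_sl (n := n) (u := v) (by linarith) (by linarith)
    have e2 : HasDerivAt (fun v : ℝ => (n - v) / v)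
        (((-1) * v - (n - v) * 1) / v ^ 2) v := by
      have h3 : HasDerivAt (fun v : ℝ => n - v) (-1) v := (hasDerivAt_id' v).const_sub n
      exact h3.fun_div (hasDerivAt_id' v) hp1.ne'
    have e3 := e2.log (by positivity)
    refine (e1.fun_sub e3).congr_deriv ?_
    field_simp
    ring
  have hmono : MonotoneOn (fun v => sl n v - Real.log ((n - v) / v))
      (Set.Icc u (n / 2)) := by
    refine monotoneOn_of_deriv_nonneg (convex_Icc _ _)
      (fun v hv => (hd v hv).continuousAt.continuousWithinAt)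
      (fun v hv => (hd v (interior_subset hv)).differentiableAt.differentiableWithinAt) ?_
    intro v hv
    have hv' := interior_subset hv
    rw [(hd v hv').deriv]
    have := om_lt (n := n) (u := v) (by linarith [hv'.1]) (by linarith [hv'.1, hv'.2])
    linarith
  have h := hmono (Set.left_mem_Icc.mpr h2) (Set.right_mem_Icc.mpr h2) h2
  simp only at h
  have hm : (n - n / 2) / (n / 2) = 1 := by
    have : n - n / 2 = n / 2 := by ring
    rw [this, div_self]
    linarith
  rw [hm, Real.log_one, sl_mid] at h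
  linarith

/-! ### monotonicity and inverse -/

lemma LB_strictMonoOn (n : ℝ) : StrictMonoOn (fun u => LB n u) (Set.Icc 0 (n / 2)) := by
  refine strictMonoOn_of_deriv_pos (convex_Icc _ _) ?_ ?_
  · rintro u ⟨h1, h2⟩
    exact (hasDerivAt_LB (n := n) (u := u) (by linarith) (by linarith)).continuousAt
      |>.continuousWithinAt
  · intro u hu
    rw [interior_Icc] at hu
    obtain ⟨h1, h2⟩ := hu
    rw [(hasDerivAt_LB (n := n) (u := u) (by linarith) (by linarith)).deriv]
    exact sl_pos (by linarith) h2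

lemma B_strictMonoOn (n : ℝ) : StrictMonoOn (fun u => B n u) (Set.Icc 0 (n / 2)) := by
  intro u hu v hv huv
  exact Real.exp_lt_exp.mpr (LB_strictMonoOn n hu hv huv)

lemma B_continuousOn (n : ℝ) : ContinuousOn (fun u => B n u) (Set.Icc 0 (n / 2)) := by
  rintro u ⟨h1, h2⟩
  exact (hasDerivAt_B (n := n) (u := u) (by linarith) (by linarith)).continuousAt
    |>.continuousWithinAt

lemma B_zero {n : ℝ} (hn : 0 ≤ n) : B n 0 = 1 := by
  unfold B LB
  have e1 : n - 0 + 1 = n + 1 := by ring
  have e2 : lg (0 + 1) = 0 := by unfold lg; rw [zero_add, Real.Gamma_one, Real.log_one]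
  rw [e1, e2]
  simp

/-- every size between `1` and `B n (n/2)` is attained at a real level -/
lemma exists_lev {n N : ℝ} (hn : 0 ≤ n) (h1 : 1 ≤ N) (h2 : N ≤ B n (n / 2)) :
    ∃ u ∈ Set.Icc 0 (n / 2), B n u = N := by
  have h := intermediate_value_Icc (by linarith : (0:ℝ) ≤ n / 2) (B_continuousOn n)
  have : N ∈ Set.Icc (B n 0) (B n (n / 2)) := ⟨by rw [B_zero hn]; exact h1, h2⟩
  exact h this

lemma B_le_mid {n u : ℝ} (h0 : 0 ≤ u) (h1 : u ≤ n) : B n u ≤ B n (n / 2) := by
  rcases le_total u (n / 2) with h | h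
  · exact (B_strictMonoOn n).monotoneOn ⟨h0, h⟩ ⟨by linarith, le_rfl⟩ h
  · rw [← B_symm n u]
    exact (B_strictMonoOn n).monotoneOn ⟨by linarith, by linarith⟩ ⟨by linarith, le_rfl⟩
      (by linarith)

end GamLev
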