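import Mathlib

/-!
Digamma and trigamma on the positive reals: `dg`, `trig`, elementary bounds.
-/

open Filter Topology

namespace GamLev

/-- log Gamma -/
noncomputable def lg (x : ℝ) : ℝ := Real.log (Real.Gamma x)

/-- digamma -/
noncomputable def dg (x : ℝ) : ℝ := deriv lg x

/-- trigamma -/
noncomputable def trig (x : ℝ) : ℝ := ∑' m : ℕ, 1 / (x + m) ^ 2

lemma hasDerivAt_lg {x : ℝ} (hx : 0 < x) : HasDerivAt lg (dg x) x := by
  have h1 : DifferentiableAt ℝ Real.Gamma x := by
    apply Real.differentiableAt_Gamma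
    intro m
    have : (0 : ℝ) ≤ m := Nat.cast_nonneg m
    linarith
  have h2 : DifferentiableAt ℝ lg x := h1.log (Real.Gamma_pos_of_pos hx).ne'
  exact h2.hasDerivAt

lemma lg_add_one {x : ℝ} (hx : 0 < x) : lg (x + 1) = lg x + Real.log x := by
  unfold lg
  rw [Real.Gamma_add_one hx.ne', Real.log_mul hx.ne' (Real.Gamma_pos_of_pos hx).ne', add_comm]

lemma dg_add_one {x : ℝ} (hx : 0 < x) : dg (x + 1) = dg x + 1 / x := by
  have h1 : HasDerivAt (fun y => lg (y + 1)) (dg (x + 1)) x :=
    (hasDerivAt_lg (by linarith : (0:ℝ) < x + 1)).comp_add_const x 1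
  have h2 : HasDerivAt (fun y => lg y + Real.log y) (dg x + x⁻¹) x :=
    (hasDerivAt_lg hx).add (Real.hasDerivAt_log hx.ne')
  have h3 : (fun y => lg (y + 1)) =ᶠ[𝓝 x] (fun y => lg y + Real.log y) := by
    filter_upwards [lt_mem_nhds hx] with y hy
    exact lg_add_one hy
  have h4 := h1.unique (h2.congr_of_eventuallyEq h3)
  rw [h4, one_div]

lemma convexOn_lg : ConvexOn ℝ (Set.Ioi 0) lg := Real.convexOn_log_Gamma

lemma dg_le_log {x : ℝ} (hx : 0 < x) : dg x ≤ Real.log x := by
  have h := convexOn_lg.le_slope_of_hasDerivAt (Set.mem_Ioi.mpr hx)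
    (Set.mem_Ioi.mpr (by linarith : (0:ℝ) < x + 1)) (by linarith) (hasDerivAt_lg hx)
  rw [slope_def_field, lg_add_one hx] at h
  have : (lg x + Real.log x - lg x) / (x + 1 - x) = Real.log x := by
    have : x + 1 - x = 1 := by ring
    rw [this]; ring
  rw [this] at h
  exact h

lemma log_le_dg {x : ℝ} (hx : 0 < x) : Real.log x ≤ dg (x + 1) := by
  have h := convexOn_lg.slope_le_of_hasDerivAt (Set.mem_Ioi.mpr hx)
    (Set.mem_Ioi.mpr (by linarith : (0:ℝ) < x + 1)) (by linarith)
    (hasDerivAt_lg (by linarith : (0:ℝ) < x + 1))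
  rw [slope_def_field, lg_add_one hx] at h
  have : (lg x + Real.log x - lg x) / (x + 1 - x) = Real.log x := by
    have : x + 1 - x = 1 := by ring
    rw [this]; ring
  rw [this] at h
  exact h

lemma dg_add_nat {x : ℝ} (hx : 0 < x) (N : ℕ) :
    dg (x + N) = dg x + ∑ m ∈ Finset.range N, 1 / (x + m) := by
  induction N with
  | zero => simp
  | succ N ih =>
    have hN : (0:ℝ) < x + N := by positivity
    have : x + ((N + 1 : ℕ) : ℝ) = (x + N) + 1 := by push_cast; ring
    rw [this, dg_add_one hN, ih, Finset.sum_range_succ]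
    ring

lemma tendsto_dg_sub_log {x : ℝ} (hx : 0 < x) :
    Tendsto (fun N : ℕ => dg (x + N) - Real.log N) atTop (𝓝 0) := by
  -- squeeze between log((x+N-1)/N) and log((x+N)/N)
  have hu : Tendsto (fun N : ℕ => Real.log ((x + N) / N)) atTop (𝓝 0) := by
    have h1 : Tendsto (fun N : ℕ => x / (N : ℝ) + 1) atTop (𝓝 (0 + 1)) :=
      (tendsto_const_div_atTop_nhds_zero_nat x).add tendsto_const_nhds
    have h2 : Tendsto (fun N : ℕ => (x + N) / (N : ℝ)) atTop (𝓝 1) := by
      rw [zero_add] at h1
      refine h1.congr' ?_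
      filter_upwards [eventually_gt_atTop 0] with N hN
      have : (N : ℝ) ≠ 0 := by positivity
      field_simp
    have h3 := (Real.continuousAt_log (one_ne_zero)).tendsto.comp h2
    rw [Real.log_one] at h3
    exact h3
  have hl : Tendsto (fun N : ℕ => Real.log ((x + N - 1) / N)) atTop (𝓝 0) := by
    have h1 : Tendsto (fun N : ℕ => (x - 1) / (N : ℝ) + 1) atTop (𝓝 (0 + 1)) :=
      (tendsto_const_div_atTop_nhds_zero_nat (x - 1)).add tendsto_const_nhds
    have h2 : Tendsto (fun N : ℕ => (x + N - 1) / (N : ℝ)) atTop (𝓝 1) := by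
      rw [zero_add] at h1
      refine h1.congr' ?_
      filter_upwards [eventually_gt_atTop 0] with N hN
      have : (N : ℝ) ≠ 0 := by positivity
      field_simp
      ring
    have h3 := (Real.continuousAt_log (one_ne_zero)).tendsto.comp h2
    rw [Real.log_one] at h3
    exact h3
  refine tendsto_of_tendsto_of_tendsto_of_le_of_le' hl hu ?_ ?_
  · filter_upwards [eventually_ge_atTop 2] with N hN
    have hN' : (2 : ℝ) ≤ N := by exact_mod_cast hN
    have h1 : (0:ℝ) < x + N - 1 := by linarith
    rw [Real.log_div h1.ne' (by linarith : (N:ℝ) ≠ 0)]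
    have := log_le_dg h1
    have e : x + (N:ℝ) - 1 + 1 = x + N := by ring
    rw [e] at this
    linarith
  · filter_upwards [eventually_ge_atTop 1] with N hN
    have hN' : (1 : ℝ) ≤ N := by exact_mod_cast hN
    have h1 : (0:ℝ) < x + N := by linarith
    rw [Real.log_div h1.ne' (by linarith : (N:ℝ) ≠ 0)]
    have := dg_le_log h1
    linarith

/-- termwise difference -/
lemma hasSum_dg_sub {x y : ℝ} (hx : 0 < x) (hy : 0 < y) :
    Tendsto (fun N : ℕ => ∑ m ∈ Finset.range N, (1 / (x + m) - 1 / (y + m))) atTop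
      (𝓝 (dg y - dg x)) := by
  have h1 := (tendsto_dg_sub_log hx).sub (tendsto_dg_sub_log hy)
  rw [sub_zero] at h1
  have h2 : Tendsto (fun N : ℕ => (dg y - dg x) +
      ((dg (x + N) - Real.log N) - (dg (y + N) - Real.log N))) atTop (𝓝 (dg y - dg x + 0)) :=
    tendsto_const_nhds.add h1
  rw [add_zero] at h2
  refine h2.congr fun N => ?_
  rw [dg_add_nat hx, dg_add_nat hy, Finset.sum_sub_distrib]
  ring

lemma summable_inv_sq {x : ℝ} (hx : 0 < x) : Summable fun m : ℕ => 1 / (x + m) ^ 2 := by
  have h : Summable fun m : ℕ => 1 / (x ^ 2) * (if m = 0 then (1:ℝ) else 0) + 1 / (m : ℝ) ^ 2 := by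
    refine Summable.add ?_ ?_
    · refine Summable.mul_left _ ?_
      exact summable_of_ne_finset_zero (s := {0}) (by
        intro b hb
        simp at hb
        simp [hb])
    · simp
  refine Summable.of_nonneg_of_le (fun m => by positivity) (fun m => ?_) h
  rcases Nat.eq_zero_or_pos m with rfl | hm
  · simp
  · have hm' : (0 : ℝ) < m := by exact_mod_cast hm
    have : m ≠ 0 := hm.ne'
    simp only [this, if_false, mul_zero, zero_add]
    refine one_div_le_one_div_of_le (by positivity) ?_
    have : (m : ℝ) ≤ x + m := by linarith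
    exact pow_le_pow_left₀ hm'.le this 2

/-- the derivative of digamma is trigamma -/
lemma hasDerivAt_dg {x : ℝ} (hx : 0 < x) : HasDerivAt dg (trig x) x := by
  -- the series of differences from the base point `1`
  set a : ℝ := x / 2 with ha
  have ha0 : 0 < a := by positivity
  have hxa : a < x := by rw [ha]; linarith
  have hser : HasDerivAt (fun z => ∑' m : ℕ, (1 / (x + m) - 1 / (z + m)))
      (∑' m : ℕ, 1 / (x + (m : ℝ)) ^ 2) x := by
    refine hasDerivAt_tsum_of_isPreconnected (u := fun m : ℕ => 1 / (a + m) ^ 2)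
      (t := Set.Ioi a) (y₀ := x) (summable_inv_sq ha0) isOpen_Ioi isPreconnected_Ioi
      (g := fun m z => 1 / (x + m) - 1 / (z + m)) (g' := fun m z => 1 / (z + (m : ℝ)) ^ 2)
      ?_ ?_ hxa ?_ hxa
    · intro m z hz
      have hz0 : (0:ℝ) < z + m := by
        have : a < z := hz
        have : (0:ℝ) ≤ m := Nat.cast_nonneg m
        linarith
      have h1 : HasDerivAt (fun z : ℝ => z + (m : ℝ)) 1 z := (hasDerivAt_id' z).add_const _
      have h2 : HasDerivAt (fun z : ℝ => 1 / (z + (m : ℝ))) (-(1 / (z + (m : ℝ)) ^ 2)) z := by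
        have := h1.fun_inv hz0.ne'
        simp only [one_div]
        refine this.congr_deriv ?_
        rw [neg_div, one_div]
      exact (h2.const_sub (1 / (x + (m : ℝ)))).congr_deriv (by ring)
    · intro m z hz
      have hz0 : a < z := hz
      have hm : (0:ℝ) ≤ m := Nat.cast_nonneg m
      rw [Real.norm_of_nonneg (by positivity)]
      exact one_div_le_one_div_of_le (by positivity)
        (pow_le_pow_left₀ (by linarith) (by linarith) 2)
    · simp only [sub_self]
      exact summable_zero
  have heq : ∀ z : ℝ, 0 < z → dg z = dg x + ∑' m : ℕ, (1 / (x + m) - 1 / (z + m)) := by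
    intro z hz
    have hs : Summable fun m : ℕ => (1 / (x + m) - 1 / (z + m)) := by
      have hb : Summable fun m : ℕ => |z - x| * (1 / ((min x z) + m) ^ 2) :=
        (summable_inv_sq (lt_min hx hz)).mul_left _
      refine Summable.of_norm_bounded hb fun m => ?_
      have hm : (0:ℝ) ≤ m := Nat.cast_nonneg m
      have hxm : 0 < x + m := by linarith
      have hzm : 0 < z + m := by linarith
      have hmin : 0 < min x z + m := by
        have := lt_min hx hz
        linarith
      have e : 1 / (x + m) - 1 / (z + m) = (z - x) * (1 / ((x + m) * (z + m))) := by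
        field_simp
        ring
      rw [e, norm_mul, Real.norm_eq_abs, Real.norm_of_nonneg (by positivity)]
      refine mul_le_mul_of_nonneg_left ?_ (abs_nonneg _)
      refine one_div_le_one_div_of_le (by positivity) ?_
      rw [sq]
      exact mul_le_mul (by linarith [min_le_left x z]) (by linarith [min_le_right x z])
        hmin.le hxm.le
    have h1 := hs.hasSum.tendsto_sum_nat
    have h2 := hasSum_dg_sub hx hz
    have h3 := tendsto_nhds_unique h1 h2
    rw [h3]; ring
  have h5 : dg =ᶠ[𝓝 x] fun z => dg x + ∑' m : ℕ, (1 / (x + m) - 1 / (z + m)) := by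
    filter_upwards [lt_mem_nhds hx] with z hz
    exact heq z hz
  exact (hser.const_add (dg x)).congr_of_eventuallyEq h5

lemma trig_pos {x : ℝ} (hx : 0 < x) : 0 < trig x := by
  unfold trig
  exact (summable_inv_sq hx).tsum_pos (fun m => by positivity) 0 (by positivity)

lemma trig_eq {x : ℝ} (hx : 0 < x) : trig x = 1 / x ^ 2 + trig (x + 1) := by
  unfold trig
  rw [(summable_inv_sq hx).tsum_eq_zero_add]
  simp only [Nat.cast_zero, add_zero, Nat.cast_add, Nat.cast_one]
  congr 1
  refine tsum_congr fun m => ?_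
  congr 2
  ring

/-- telescoping series -/
lemma hasSum_tel {x : ℝ} (hx : 0 < x) :
    HasSum (fun m : ℕ => 1 / (x + m) - 1 / (x + m + 1)) (1 / x) := by
  have h0 : ∀ m : ℕ, 0 ≤ 1 / (x + m) - 1 / (x + m + 1) := by
    intro m
    have hm : (0:ℝ) ≤ m := Nat.cast_nonneg m
    rw [sub_nonneg]
    exact one_div_le_one_div_of_le (by linarith) (by linarith)
  rw [hasSum_iff_tendsto_nat_of_nonneg h0]
  have h1 : ∀ N : ℕ, ∑ m ∈ Finset.range N, (1 / (x + m) - 1 / (x + m + 1))
      = 1 / x - 1 / (x + N) := by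
    intro N
    induction N with
    | zero => simp
    | succ N ih =>
      rw [Finset.sum_range_succ, ih]
      push_cast
      ring_nf
  simp only [h1]
  have h2 : Tendsto (fun N : ℕ => 1 / (x + (N : ℝ))) atTop (𝓝 0) := by
    simp only [one_div]
    exact tendsto_inv_atTop_zero.comp
      (tendsto_atTop_add_const_left _ x tendsto_natCast_atTop_atTop)
  have := (tendsto_const_nhds (x := 1 / x)).sub h2
  rw [sub_zero] at this
  exact this

lemma inv_lt_trig {x : ℝ} (hx : 0 < x) : 1 / x < trig x := by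
  have h1 := hasSum_tel hx
  have h2 := (summable_inv_sq hx).hasSum
  have h3 : ∀ m : ℕ, 1 / (x + m) - 1 / (x + m + 1) < 1 / (x + m) ^ 2 := by
    intro m
    have hm : (0:ℝ) ≤ m := Nat.cast_nonneg m
    have hxm : 0 < x + m := by linarith
    have e : 1 / (x + m) - 1 / (x + m + 1) = 1 / ((x + m) * (x + m + 1)) := by
      field_simp
      ring
    rw [e]
    refine one_div_lt_one_div_of_lt (by positivity) ?_
    nlinarith
  exact hasSum_lt (fun m => (h3 m).le) (h3 0) h1 h2

lemma trig_add_one_lt {x : ℝ} (hx : 0 < x) : trig (x + 1) < 1 / x := by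
  have hx1 : 0 < x + 1 := by linarith
  have h1 := hasSum_tel hx
  have h2 := (summable_inv_sq hx1).hasSum
  have h3 : ∀ m : ℕ, 1 / (x + 1 + m) ^ 2 < 1 / (x + m) - 1 / (x + m + 1) := by
    intro m
    have hm : (0:ℝ) ≤ m := Nat.cast_nonneg m
    have hxm : 0 < x + m := by linarith
    have e : 1 / (x + m) - 1 / (x + m + 1) = 1 / ((x + m) * (x + m + 1)) := by
      field_simp
      ring
    rw [e]
    refine one_div_lt_one_div_of_lt (by positivity) ?_
    nlinarith
  exact hasSum_lt (fun m => (h3 m).le) (h3 0) h2 h1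

lemma trig_lt {x : ℝ} (hx : 0 < x) : trig x < 1 / x + 1 / x ^ 2 := by
  rw [trig_eq hx]
  have := trig_add_one_lt hx
  linarith

lemma inv_lt_trig_add_one {x : ℝ} (hx : 0 < x) : 1 / (x + 1) < trig (x + 1) :=
  inv_lt_trig (by linarith)

lemma trig_antitone {x y : ℝ} (hx : 0 < x) (hxy : x ≤ y) : trig y ≤ trig x := by
  unfold trig
  refine Summable.tsum_le_tsum (fun m => ?_) (summable_inv_sq (by linarith)) (summable_inv_sq hx)
  have hm : (0:ℝ) ≤ m := Nat.cast_nonneg m
  exact one_div_le_one_div_of_le (by positivity) (pow_le_pow_left₀ (by linarith) (by linarith) 2)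

end GamLev
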